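import Pool.Agent.Q12.LocBridge

/-!
For every finite-dimensional algebra over the real or complex numbers, the Lie algebra of the group
of local automorphisms equals the space of local derivations, which is a Lie algebra.
-/

namespace Pool.Agent.Results.MP_9b03f8_al.LieLocAut

open Q12.LocDefs

/-- The set `{X | exp (t X) ∈ G for all real t}`, the Lie algebra of a closed subgroup `G` of
`GL(A)`. -/
def tangentSet {𝕜 A : Type*} [RCLike 𝕜] [NormedAddCommGroup A] [NormedSpace 𝕜 A]
    (G : Set (A →L[𝕜] A)) : Set (A →L[𝕜] A) :=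
  {X | ∀ t : ℝ, NormedSpace.exp ((t : 𝕜) • X) ∈ G}

/-- For every finite-dimensional algebra `A` over `𝕜 = ℝ` or `ℂ` with product `m`:
the local derivations form a Lie algebra `L` under the commutator, and `L` is exactly the Lie
algebra `{X | exp (t X) ∈ LocAut(A) for all real t}` of the group of local automorphisms. -/
theorem result (𝕜 A : Type*) [RCLike 𝕜] [NormedAddCommGroup A] [NormedSpace 𝕜 A]
    [FiniteDimensional 𝕜 A] (m : A →ₗ[𝕜] A →ₗ[𝕜] A) :
    ∃ L : Submodule 𝕜 (A →L[𝕜] A),
      (∀ S ∈ L, ∀ T ∈ L, S * T - T * S ∈ L) ∧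
      (L : Set (A →L[𝕜] A)) = {Δ | IsLocalDerivation m Δ} ∧
      (L : Set (A →L[𝕜] A)) = tangentSet {φ : A →L[𝕜] A | IsLocalAutomorphism m φ} := by
  refine ⟨{ carrier := {Δ | IsLocalDerivation m Δ}
            zero_mem' := fun x => ⟨0, fun x y => by simp, rfl⟩
            add_mem' := ?_
            smul_mem' := ?_ }, fun S hS T hT => Q12.LocBridge.comm m S T hS hT, rfl, ?_⟩
  · intro a b ha hb x
    obtain ⟨D, hD, hD'⟩ := ha x
    obtain ⟨E, hE, hE'⟩ := hb x
    refine ⟨D + E, fun x y => ?_, by simp [hD', hE']⟩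
    simp only [add_apply, hD x y, hE x y, map_add, LinearMap.add_apply]
    abel
  · intro c a ha x
    obtain ⟨D, hD, hD'⟩ := ha x
    refine ⟨c • D, fun x y => ?_, by simp [hD']⟩
    simp only [smul_apply, hD x y, map_smul, smul_add, LinearMap.smul_apply]
  · ext X
    exact (Q12.LocBridge.main m X).symm

end Pool.Agent.Results.MP_9b03f8_al.LieLocAut
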